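import Mathlib
import Pool.Agent.Lib.MP_b0e841_co.UN.T

/-!
Unit circles through three points of a finite set `P` whose differences lie in a generalised
arithmetic progression `Q = {∑ x_i e_i : |x_i| ≤ N}` with arbitrary complex `e_1, ..., e_k`:
there are at most `K |P| N^ε` of them, where `K` depends on `k` and `ε` only.
-/

namespace Pool.Agent.Results.MP_b0e841_co.BoundedRank

open Finset Classical Pool.Agent.Lib.MPb0e841.NF Pool.Agent.Lib.MPb0e841.UN NumberField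

/-- `cv e x`, `cv e y` are two sides of a triangle `0, V, W` with circumradius squared `R2`. -/
def Sd {k : ℕ} (e : Fin k → ℂ) (R2 : ℂ) (x y : Fin k → ℤ) : Prop :=
  cv e x ≠ 0 ∧ cv e y ≠ 0 ∧ cv e y - cv e x ≠ 0 ∧
  cv e x * (starRingEnd ℂ) (cv e y) - (starRingEnd ℂ) (cv e x) * cv e y ≠ 0 ∧
  R2 * (cv e x * (starRingEnd ℂ) (cv e y) - (starRingEnd ℂ) (cv e x) * cv e y) ^ 2
    = -(cv e x * (starRingEnd ℂ) (cv e x) * (cv e y * (starRingEnd ℂ) (cv e y))
      * ((cv e y - cv e x) * ((starRingEnd ℂ) (cv e y) - (starRingEnd ℂ) (cv e x))))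

/-- Three distinct points of a progression on a unit circle give a pair of sides. -/
lemma sd_of_three {k : ℕ} {e : Fin k → ℂ} {lam p z : ℂ} {x y : Fin k → ℤ}
    (n1 : p + lam * cv e x ≠ p) (n2 : p + lam * cv e y ≠ p)
    (n3 : p + lam * cv e x ≠ p + lam * cv e y)
    (d0 : dist p z = 1) (d1 : dist (p + lam * cv e x) z = 1)
    (d2 : dist (p + lam * cv e y) z = 1) :
    Sd e (1 / (lam * (starRingEnd ℂ) lam)) x y := by
  have hlam : lam ≠ 0 := by
    rintro rfl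
    apply n1
    simp
  have hlam' : (starRingEnd ℂ) lam ≠ 0 := by
    simpa using hlam
  unfold Sd
  set V := cv e x with hV
  set W := cv e y with hW
  have hV0 : V ≠ 0 := by
    intro h
    apply n1
    rw [h]; simp
  have hW0 : W ≠ 0 := by
    intro h
    apply n2
    rw [h]; simp
  have hVW : W - V ≠ 0 := by
    intro h
    apply n3
    have : W = V := sub_eq_zero.mp h
    rw [this]
  have E0 := dist_one_mul d0
  have E1 := dist_one_mul d1
  have E2 := dist_one_mul d2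
  rw [map_add, map_mul] at E1 E2
  set lb := (starRingEnd ℂ) lam with hlb
  have rel := circumC (V := V) (V' := (starRingEnd ℂ) V) (W := W) (W' := (starRingEnd ℂ) W)
    (c := (z - p) / lam) (c' := ((starRingEnd ℂ) z - (starRingEnd ℂ) p) / lb)
    (R := 1 / (lam * lb))
    (by
      rw [div_mul_div_comm, div_left_inj' (mul_ne_zero hlam hlam')]
      linear_combination E0)
    (by
      have h1 : V - (z - p) / lam = (p + lam * V - z) / lam := by field_simp; ring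
      have h2 : (starRingEnd ℂ) V - ((starRingEnd ℂ) z - (starRingEnd ℂ) p) / lb
          = ((starRingEnd ℂ) p + lb * (starRingEnd ℂ) V - (starRingEnd ℂ) z) / lb := by
        field_simp; ring
      rw [h1, h2, div_mul_div_comm, E1])
    (by
      have h1 : W - (z - p) / lam = (p + lam * W - z) / lam := by field_simp; ring
      have h2 : (starRingEnd ℂ) W - ((starRingEnd ℂ) z - (starRingEnd ℂ) p) / lb
          = ((starRingEnd ℂ) p + lb * (starRingEnd ℂ) W - (starRingEnd ℂ) z) / lb := by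
        field_simp; ring
      rw [h1, h2, div_mul_div_comm, E2])
  have hVc : (starRingEnd ℂ) V ≠ 0 := by simpa using hV0
  have hWc : (starRingEnd ℂ) W ≠ 0 := by simpa using hW0
  have hVWc : (starRingEnd ℂ) W - (starRingEnd ℂ) V ≠ 0 := by
    rw [← map_sub]; exact (map_ne_zero _).mpr hVW
  have hdelta : V * (starRingEnd ℂ) W - (starRingEnd ℂ) V * W ≠ 0 := by
    intro h0
    rw [h0] at rel
    have h1 : V * (starRingEnd ℂ) V * (W * (starRingEnd ℂ) W)
        * ((W - V) * ((starRingEnd ℂ) W - (starRingEnd ℂ) V)) = 0 := by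
      have : (1 / (lam * lb)) * (0 : ℂ) ^ 2 = 0 := by simp
      rw [this] at rel
      exact neg_eq_zero.mp rel.symm
    exact (mul_ne_zero (mul_ne_zero (mul_ne_zero hV0 hVc) (mul_ne_zero hW0 hWc))
      (mul_ne_zero hVW hVWc)) h1
  exact ⟨hV0, hW0, hVW, hdelta, rel⟩

lemma comb_sub {F : Type} [CommRing F] {k : ℕ} (h : Fin k → F) (x y : Fin k → ℤ) :
    comb h (x - y) = comb h x - comb h y := by
  unfold comb
  rw [← Finset.sum_sub_distrib]
  apply Finset.sum_congr rfl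
  intro i _
  simp only [Pi.sub_apply]
  push_cast
  ring

lemma norm_comb_le {K : Type} [Field K] [NumberField K] {k : ℕ} (g : Fin k → 𝓞 K) {B m : ℝ}
    (hm : 0 ≤ m) (hg : ∀ i, ∀ φ : K →+* ℂ, ‖φ (g i : K)‖ ≤ B) (x : Fin k → ℤ)
    (hx : ∀ i, ((|x i| : ℤ) : ℝ) ≤ m) (φ : K →+* ℂ) : ‖φ ((comb g x : 𝓞 K) : K)‖ ≤ m * (k * B) := by
  have h0 : φ ((comb g x : 𝓞 K) : K) = ∑ i, (x i : ℂ) * φ (g i : K) := map_vec g x φ
  rw [h0]
  calc ‖∑ i, (x i : ℂ) * φ (g i : K)‖ ≤ ∑ i, ‖(x i : ℂ) * φ (g i : K)‖ := norm_sum_le _ _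
    _ ≤ ∑ _i : Fin k, m * B := by
        apply Finset.sum_le_sum
        intro i _
        rw [norm_mul]
        have h1 : ‖(x i : ℂ)‖ ≤ m := by
          have h2 : ‖(x i : ℂ)‖ = ((|x i| : ℤ) : ℝ) := by
            rw [Complex.norm_intCast]; push_cast; rfl
          rw [h2]; exact hx i
        exact mul_le_mul h1 (hg i φ) (norm_nonneg _) hm
    _ = m * (k * B) := by
        rw [Finset.sum_const, Finset.card_univ, Fintype.card_fin, nsmul_eq_mul]; ring

/-- `v` lies in the progression `{∑ x_i e_i : x_i integers, |x_i| ≤ N}`. -/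
def InQ {k : ℕ} (e : Fin k → ℂ) (N : ℕ) (v : ℂ) : Prop :=
  ∃ x : Fin k → ℤ, (∀ i, |x i| ≤ N) ∧ v = ∑ i, (x i : ℂ) * e i

/-- For every `k` and every `ε > 0` there is `K` such that for all `N ≥ 1`, all complex
`e_1, ..., e_k` and every finite set `P` in the plane `ℂ`, at most `K |P| N^ε` points `z` are
centres of a unit circle through three distinct points `p, p', p''` of `P` with `p' - p` and
`p'' - p` in `{∑ x_i e_i : |x_i| ≤ N}`. -/
theorem result :
    ∀ (k : ℕ) (ε : ℝ), 0 < ε → ∃ K : ℝ,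
      ∀ N : ℕ, 1 ≤ N → ∀ (e : Fin k → ℂ) (P C : Finset ℂ),
        (∀ z ∈ C, ∃ p ∈ P, ∃ p' ∈ P, ∃ p'' ∈ P, p ≠ p' ∧ p ≠ p'' ∧ p' ≠ p'' ∧
          dist p z = 1 ∧ dist p' z = 1 ∧ dist p'' z = 1 ∧
          InQ e N (p' - p) ∧ InQ e N (p'' - p)) →
        (C.card : ℝ) ≤ K * (P.card : ℝ) * (N : ℝ) ^ ε := by
  intro k ε hε
  obtain ⟨D, A, hDA⟩ := exists_transfer_unif k
  set n : ℕ := ⌈12 * ((A : ℝ) + 1) / ε⌉₊ + 1 with hn
  have hn0 : n ≠ 0 := by omega
  obtain ⟨C0, hC1, hC0⟩ := card_factors_unif D n hn0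
  set G : ℝ := 16 * (2 * (((k : ℝ) + 1) * 2 ^ A)) ^ 6 with hG
  have hG1 : 1 ≤ G := by
    have h0 : (1 : ℝ) ≤ ((k : ℝ) + 1) * 2 ^ A :=
      one_le_mul_of_one_le_of_one_le (by have : (0 : ℝ) ≤ k := Nat.cast_nonneg k
                                         linarith) (one_le_pow₀ (by norm_num))
    have h1 : (1 : ℝ) ≤ (2 * (((k : ℝ) + 1) * 2 ^ A)) ^ 6 := one_le_pow₀ (by linarith)
    rw [hG]; linarith
  refine ⟨2 * (C0 ^ 2 * G ^ 2), ?_⟩
  intro N hN e P C hC
  obtain ⟨K, fK, nK, g, g', hdeg, hgB, hgB', t1, t2, t3, t5⟩ := hDA (2 * N) (by omega) e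
  have hNr : (1 : ℝ) ≤ N := by exact_mod_cast hN
  have hNe : (1 : ℝ) ≤ (N : ℝ) ^ (ε / 2) := Real.one_le_rpow hNr (by positivity)
  set H : ℝ := G * (N : ℝ) ^ (ε / 2) with hH
  have hH1 : 1 ≤ H := one_le_mul_of_one_le_of_one_le hG1 hNe
  set m : ℝ := 2 * N with hm
  have hm0 : 0 ≤ m := by positivity
  set B : ℝ := ((k : ℝ) + 1) * (2 * (N : ℝ)) ^ A with hBdef
  have hk0 : (0 : ℝ) ≤ k := Nat.cast_nonneg k
  have hB1 : 1 ≤ B := one_le_mul_of_one_le_of_one_le (by linarith) (one_le_pow₀ (by linarith))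
  set h : ℝ := m * B with hh
  have hh1 : 1 ≤ h := one_le_mul_of_one_le_of_one_le (by rw [hm]; linarith) hB1
  have hhH : 16 * h ^ 6 ≤ H ^ n := by
    have e1 : 16 * h ^ 6 = G * (N : ℝ) ^ (6 * (A + 1) : ℕ) := by
      rw [hh, hm, hG, hBdef, mul_pow (2 : ℝ) (N : ℝ) A, pow_mul' (N : ℝ) 6 (A + 1),
        pow_succ (N : ℝ) A]
      ring
    rw [e1, hH, mul_pow]
    have h1 : G ≤ G ^ n := le_self_pow₀ hG1 hn0
    have h2 : (N : ℝ) ^ (6 * (A + 1) : ℕ) ≤ ((N : ℝ) ^ (ε / 2)) ^ n := by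
      rw [← Real.rpow_natCast, ← Real.rpow_natCast, ← Real.rpow_mul (by positivity)]
      apply Real.rpow_le_rpow_of_exponent_le hNr
      have h3 : 12 * ((A : ℝ) + 1) / ε ≤ (n : ℝ) := by
        rw [hn]; push_cast
        linarith [Nat.le_ceil (12 * ((A : ℝ) + 1) / ε)]
      rw [div_le_iff₀ hε] at h3
      push_cast
      linarith
    exact mul_le_mul h1 h2 (by positivity) (by positivity)
  have hkB : ∀ (g : Fin k → 𝓞 K), (∀ i, ∀ φ : K →+* ℂ, ‖φ (g i : K)‖ ≤ ((2 * N : ℕ) : ℝ) ^ A) →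
      ∀ x : Fin k → ℤ, (∀ i, ((|x i| : ℤ) : ℝ) ≤ m) → ∀ φ : K →+* ℂ, ‖φ ((comb g x : 𝓞 K) : K)‖ ≤ h := by
    intro g hg x hx φ
    refine (norm_comb_le g hm0 hg x hx φ).trans ?_
    rw [hh, hBdef]
    apply mul_le_mul_of_nonneg_left _ hm0
    push_cast
    apply mul_le_mul_of_nonneg_right _ (by positivity)
    linarith
  have b24 : ∀ a : ℤ, |a| ≤ 2 * (N : ℤ) → |a| ≤ ((4 * (2 * N) : ℕ) : ℤ) := by
    intro a ha
    push_cast
    have : (0 : ℤ) ≤ N := by positivity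
    linarith
  set R2 : ℂ := 1 / (1 * (starRingEnd ℂ) 1) with hR2
  -- differences with a side property
  set Xs : Finset (Fin k → ℤ) := (Fintype.piFinset (fun _ : Fin k =>
    Finset.Icc (-(2 * (N : ℤ))) (2 * N))).filter
      (fun x => ∃ y : Fin k → ℤ, (∀ i, |y i| ≤ 2 * (N : ℤ)) ∧ (∀ i, |y i - x i| ≤ 2 * (N : ℤ)) ∧
        Sd e R2 x y) with hXs
  set V : Finset ℂ := Xs.image (cv e) with hV
  have hch : ∀ v ∈ V, ∃ xy : (Fin k → ℤ) × (Fin k → ℤ), cv e xy.1 = v ∧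
      (∀ i, |xy.1 i| ≤ 2 * (N : ℤ)) ∧ (∀ i, |xy.2 i| ≤ 2 * (N : ℤ)) ∧
      (∀ i, |xy.2 i - xy.1 i| ≤ 2 * (N : ℤ)) ∧ Sd e R2 xy.1 xy.2 := by
    intro v hv
    rw [hV, mem_image] at hv
    obtain ⟨x, hx, rfl⟩ := hv
    rw [hXs, mem_filter, Fintype.mem_piFinset] at hx
    obtain ⟨hx1, y, hy1, hy2, hy3⟩ := hx
    refine ⟨(x, y), rfl, ?_, hy1, hy2, hy3⟩
    intro i
    have h1 := hx1 i
    rw [mem_Icc, ← abs_le] at h1
    exact h1
  choose! XY hXY using hch
  have toR : ∀ a : ℤ, |a| ≤ 2 * (N : ℤ) → ((|a| : ℤ) : ℝ) ≤ m := by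
    intro a ha
    rw [hm]
    exact_mod_cast ha
  have hVcard : (V.card : ℝ) ≤ (C0 * H) * (C0 * H) := by
    apply card_sides_idx K V (fun v => comb g (XY v).1) (fun v => comb g' (XY v).1)
      (fun v => comb g (XY v).2) (fun v => comb g' (XY v).2) hC1 hH1 hh1 hhH (hC0 K hdeg H hH1)
    · intro u hu v hv huv
      obtain ⟨u1, u2, -⟩ := hXY u hu
      obtain ⟨v1, v2, -⟩ := hXY v hv
      have h1 : comb g ((XY u).1 - (XY v).1) = 0 := by
        rw [comb_sub]
        exact sub_eq_zero.mpr huv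
      by_contra hne
      refine t1 ((XY u).1 - (XY v).1) (fun i => ?_) ?_ h1
      · have i1 := u2 i
        have i2 := v2 i
        have i3 := abs_sub ((XY u).1 i) ((XY v).1 i)
        simp only [Pi.sub_apply]
        push_cast
        have : (0 : ℤ) ≤ N := by positivity
        linarith
      · rw [cv_sub, u1, v1]
        exact sub_ne_zero.mpr hne
    · intro v hv
      obtain ⟨-, v2, v3, v4, s1, s2, s3, s4, -⟩ := hXY v hv
      have s3' : cv e ((XY v).2 - (XY v).1) ≠ 0 := by rw [cv_sub]; exact s3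
      refine ⟨t1 _ (fun i => b24 _ (v2 i)) s1, t2 _ (fun i => b24 _ (v2 i)) s1,
        t1 _ (fun i => b24 _ (v3 i)) s2, t2 _ (fun i => b24 _ (v3 i)) s2, ?_, ?_,
        t3 _ _ (fun i => b24 _ (v2 i)) (fun i => b24 _ (v3 i)) s4, ?_⟩
      · rw [← comb_sub]; exact t1 _ (fun i => b24 _ (v4 i)) s3'
      · rw [← comb_sub]; exact t2 _ (fun i => b24 _ (v4 i)) s3'
      · intro φ
        refine ⟨hkB g hgB _ (fun i => toR _ (v2 i)) φ, hkB g' hgB' _ (fun i => toR _ (v2 i)) φ,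
          hkB g hgB _ (fun i => toR _ (v3 i)) φ, hkB g' hgB' _ (fun i => toR _ (v3 i)) φ, ?_, ?_⟩
        · rw [← comb_sub]
          exact hkB g hgB _ (fun i => toR _ (v4 i)) φ
        · rw [← comb_sub]
          exact hkB g' hgB' _ (fun i => toR _ (v4 i)) φ
    · intro u hu v hv
      obtain ⟨-, u2, u3, -, -, -, -, -, u5⟩ := hXY u hu
      obtain ⟨-, v2, v3, -, -, -, -, -, v5⟩ := hXY v hv
      apply t5 _ _ _ _ (fun i => b24 _ (u2 i)) (fun i => b24 _ (u3 i)) (fun i => b24 _ (v2 i))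
        (fun i => b24 _ (v3 i))
      unfold Pool.Agent.Lib.MPb0e841.UN.Rel
      generalize cv e (XY u).1 * (starRingEnd ℂ) (cv e (XY u).1)
        * (cv e (XY u).2 * (starRingEnd ℂ) (cv e (XY u).2))
        * ((cv e (XY u).2 - cv e (XY u).1)
          * ((starRingEnd ℂ) (cv e (XY u).2) - (starRingEnd ℂ) (cv e (XY u).1))) = Au at u5 ⊢
      generalize cv e (XY v).1 * (starRingEnd ℂ) (cv e (XY v).1)
        * (cv e (XY v).2 * (starRingEnd ℂ) (cv e (XY v).2))
        * ((cv e (XY v).2 - cv e (XY v).1)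
          * ((starRingEnd ℂ) (cv e (XY v).2) - (starRingEnd ℂ) (cv e (XY v).1))) = Av at v5 ⊢
      linear_combination
        (cv e (XY u).1 * (starRingEnd ℂ) (cv e (XY u).2)
          - (starRingEnd ℂ) (cv e (XY u).1) * cv e (XY u).2) ^ 2 * v5
        - (cv e (XY v).1 * (starRingEnd ℂ) (cv e (XY v).2)
          - (starRingEnd ℂ) (cv e (XY v).1) * cv e (XY v).2) ^ 2 * u5
  have main : ∀ z ∈ C, ∃ pv : ℂ × ℂ, pv.1 ∈ P ∧ pv.2 ∈ V ∧
      pv.1 ≠ pv.1 + 1 * pv.2 ∧ dist pv.1 z = 1 ∧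
      dist (pv.1 + 1 * pv.2) z = 1 := by
    intro z hz
    obtain ⟨p1, m1, p2, m2, p3, m3, n12, n13, n23, d1, d2, d3, ⟨x, bx, rx⟩, ⟨y, yb, ry⟩⟩ := hC z hz
    have hpt : ∀ x : Fin k → ℤ, ∑ i, (x i : ℂ) * e i = cv e x := fun x => rfl
    rw [hpt] at rx ry
    have s2 : p2 = p1 + 1 * cv e x := by
      rw [← rx]; ring
    have s3 : p3 = p1 + 1 * cv e y := by
      rw [← ry]; ring
    have hN0 : (0 : ℤ) ≤ N := by positivity
    have bd1 : ∀ a : ℤ, |a| ≤ (N : ℤ) → |a| ≤ 2 * (N : ℤ) := fun a ha => by linarith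
    have hs : Sd e R2 x y := by
      refine sd_of_three (p := p1) (z := z) ?_ ?_ ?_ d1 ?_ ?_
      · rw [← s2]; exact n12.symm
      · rw [← s3]; exact n13.symm
      · rw [← s2, ← s3]; exact n23
      · rw [← s2]; exact d2
      · rw [← s3]; exact d3
    refine ⟨(p1, cv e x), m1, ?_, ?_, d1, ?_⟩
    · rw [hV, mem_image]
      refine ⟨x, ?_, rfl⟩
      rw [hXs, mem_filter, Fintype.mem_piFinset]
      refine ⟨?_, y, fun i => bd1 _ (yb i), ?_, hs⟩
      · intro i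
        rw [mem_Icc, ← abs_le]
        exact bd1 _ (bx i)
      · intro i
        have h1 := abs_sub (y i) (x i)
        have h2 := yb i
        have h3 := bx i
        linarith
    · simp only
      rw [← s2]; exact n12
    · simp only
      rw [← s2]; exact d2
  choose! F hF using main
  have hcard : C.card ≤ 2 * (P ×ˢ V).card := by
    apply Finset.card_le_mul_card_image_of_maps_to (f := F)
    · intro z hz
      obtain ⟨h1, h2, -⟩ := hF z hz
      rw [mem_product]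
      exact ⟨h1, h2⟩
    · rintro ⟨p, v⟩ hpv
      by_contra hlt
      push Not at hlt
      obtain ⟨z1, m1, z2, m2, z3, m3, n12, n13, n23⟩ := Finset.two_lt_card.mp hlt
      rw [mem_filter] at m1 m2 m3
      obtain ⟨-, -, hne, A1, B1⟩ := hF z1 m1.1
      obtain ⟨-, -, -, A2, B2⟩ := hF z2 m2.1
      obtain ⟨-, -, -, A3, B3⟩ := hF z3 m3.1
      rw [m1.2] at A1 B1 hne
      rw [m2.2] at A2 B2
      rw [m3.2] at A3 B3
      simp only at A1 B1 A2 B2 A3 B3 hne
      rcases EuclideanGeometry.eq_of_dist_eq_of_dist_eq_of_finrank_eq_two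
        Complex.finrank_real_complex hne n12
        (p := z3) (r₁ := 1) (r₂ := 1)
        (by rw [dist_comm]; exact A1) (by rw [dist_comm]; exact A2) (by rw [dist_comm]; exact A3)
        (by rw [dist_comm]; exact B1) (by rw [dist_comm]; exact B2) (by rw [dist_comm]; exact B3)
        with h | h
      · exact n13 h.symm
      · exact n23 h.symm
  have hH2 : (C0 * H) * (C0 * H) = C0 ^ 2 * G ^ 2 * (N : ℝ) ^ ε := by
    have h1 : ((N : ℝ) ^ (ε / 2)) ^ (2 : ℕ) = (N : ℝ) ^ ε := by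
      rw [← Real.rpow_natCast, ← Real.rpow_mul (by positivity)]
      congr 1
      push_cast
      ring
    rw [← h1, hH]; ring
  rw [hH2] at hVcard
  calc (C.card : ℝ) ≤ 2 * ((P ×ˢ V).card : ℝ) := by exact_mod_cast hcard
    _ = 2 * ((P.card : ℝ) * (V.card : ℝ)) := by rw [card_product]; push_cast; ring
    _ ≤ 2 * ((P.card : ℝ) * (C0 ^ 2 * G ^ 2 * (N : ℝ) ^ ε)) := by
        apply mul_le_mul_of_nonneg_left _ (by norm_num)
        exact mul_le_mul_of_nonneg_left hVcard (by positivity)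
    _ = 2 * (C0 ^ 2 * G ^ 2) * (P.card : ℝ) * (N : ℝ) ^ ε := by ring

end Pool.Agent.Results.MP_b0e841_co.BoundedRank
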