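import Mathlib
import Pool.Agent.Lib.MP_b0e841_co.GR.Asm
import Pool.Agent.Lib.MP_b0e841_co.GU.Main

/-!
Unit circles through three points of a finite set `P` which are congruent modulo the vector space
`F u_1 + ... + F u_k`, where `F` is any subfield of `ℝ` and `u_1, ..., u_k` are any number of unit
vectors algebraically independent over `F`: there are at most `5 |P|^(3/2)` and at most
`(2 k / 3) |P|` of them.
-/

namespace Pool.Agent.Results.MP_b0e841_co.GenericDirections

open Finset Classical Pool.Agent.Lib.MPb0e841.NF Pool.Agent.Lib.MPb0e841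

/-- `v` lies in the `F`-vector space generated by `u_1, ..., u_k`. -/
def InV (F : Subfield ℝ) {k : ℕ} (u : Fin k → ℂ) (v : ℂ) : Prop :=
  ∃ x : Fin k → ℝ, (∀ i, x i ∈ F) ∧ v = ∑ i, (x i : ℂ) * u i

lemma conj_L {k : ℕ} {u : Fin k → ℂ} (hu : ∀ i, ‖u i‖ = 1) (x : Fin k → ℝ) :
    (starRingEnd ℂ) (GR.L x u) = GR.Lc x u := by
  unfold GR.L GR.Lc
  rw [map_sum]
  apply Finset.sum_congr rfl
  intro i _
  rw [map_mul, Complex.conj_ofReal, div_eq_mul_inv, Complex.inv_def, Complex.normSq_eq_norm_sq,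
    hu i]
  simp

lemma inG_of_ent {k : ℕ} {u : Fin k → ℂ} {x : Fin k → ℝ} (hx : GR.Ent x) :
    GU.InG u (GR.L x u) := by
  choose n hn using hx
  refine ⟨n, ?_⟩
  unfold GR.L
  apply Finset.sum_congr rfl
  intro i _
  rw [hn i]
  simp

/-- For every subfield `F` of `ℝ`, every `k`, all unit complex numbers `u_1, ..., u_k` which are
algebraically independent over `F` and every finite set `P` in the plane `ℂ`, at most
`min (5 |P|^(3/2)) ((2 k / 3) |P|)` points `z` are centres of a unit circle through three distinct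
points `p, p', p''` of `P` with `p' - p` and `p'' - p` in the vector space
`F u_1 + ... + F u_k`. -/
theorem result :
    ∀ (F : Subfield ℝ) (k : ℕ) (u : Fin k → ℂ), (∀ i, ‖u i‖ = 1) → AlgebraicIndependent F u →
      ∀ P C : Finset ℂ,
        (∀ z ∈ C, ∃ p ∈ P, ∃ p' ∈ P, ∃ p'' ∈ P, p ≠ p' ∧ p ≠ p'' ∧ p' ≠ p'' ∧
          dist p z = 1 ∧ dist p' z = 1 ∧ dist p'' z = 1 ∧
          InV F u (p' - p) ∧ InV F u (p'' - p)) →
        (C.card : ℝ) ≤ min (5 * (P.card : ℝ) ^ (3 / 2 : ℝ)) (2 * k / 3 * (P.card : ℝ)) := by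
  intro F k u hu hind P C hC
  have hu0 : ∀ i, u i ≠ 0 := by
    intro i h0
    have := hu i
    rw [h0] at this
    simp at this
  have hindQ : AlgebraicIndependent ℚ u :=
    hind.restrictScalars (algebraMap ℚ F).injective
  suffices main : ∀ z ∈ C, ∃ p ∈ P, ∃ p' ∈ P, ∃ p'' ∈ P, p ≠ p' ∧ p ≠ p'' ∧ p' ≠ p'' ∧
      dist p z = 1 ∧ dist p' z = 1 ∧ dist p'' z = 1 ∧
      GU.InG u (p' - p) ∧ GU.InG u (p'' - p) by
    apply le_min (GU.generic_int k u hu hindQ P C main)
    have h1 := GU.generic_linear k u hu hindQ P C main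
    have h2 : (C.card : ℝ) * 3 ≤ (P.card : ℝ) * (2 * k) := by exact_mod_cast h1
    linarith
  intro z hz
  obtain ⟨p1, m1, p2, m2, p3, m3, n12, n13, n23, d1, d2, d3, ⟨x, xF, hx⟩, ⟨w, wF, hw⟩⟩ := hC z hz
  refine ⟨p1, m1, p2, m2, p3, m3, n12, n13, n23, d1, d2, d3, ?_⟩
  have hx' : p2 - p1 = GR.L x u := hx
  have hw' : p3 - p1 = GR.L w u := hw
  set y : Fin k → ℝ := fun l => -w l with hy
  set s : Fin k → ℝ := fun l => w l - x l with hs
  have hsum : ∀ l, x l + y l + s l = 0 := by
    intro l; simp only [hy, hs]; ring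
  have Ly : GR.L y u = p1 - p3 := by
    have : GR.L y u = -GR.L w u := by
      unfold GR.L
      rw [← Finset.sum_neg_distrib]
      apply Finset.sum_congr rfl
      intro i _
      simp [hy]
    rw [this, ← hw']; ring
  set V := GR.L x u with hV
  set Y := GR.L y u with hY
  have hS : GR.L s u = -V - Y := GR.L_sum_zero hsum u
  have hSc : GR.Lc s u = -(starRingEnd ℂ) V - (starRingEnd ℂ) Y := by
    rw [GR.Lc_sum_zero hsum u, hV, hY, conj_L hu, conj_L hu]
  have cV : GR.Lc x u = (starRingEnd ℂ) V := (conj_L hu _).symm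
  have cY : GR.Lc y u = (starRingEnd ℂ) Y := (conj_L hu _).symm
  have s2 : p2 = p1 + V := by rw [← hx']; ring
  have s3 : p3 = p1 - Y := by rw [Ly]; ring
  have E0 := dist_one_mul d1
  have E1 := dist_one_mul d2
  have E2 := dist_one_mul d3
  have rel := circumC (V := V) (V' := (starRingEnd ℂ) V) (W := -Y) (W' := -(starRingEnd ℂ) Y)
    (c := z - p1) (c' := (starRingEnd ℂ) z - (starRingEnd ℂ) p1) (R := 1)
    (by linear_combination E0)
    (by
      rw [s2, map_add] at E1
      linear_combination E1)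
    (by
      rw [s3, map_sub] at E2
      linear_combination E2)
  have hCir : GR.Cir x y s u := by
    unfold GR.Cir
    rw [hSc, hS, cV, cY, ← hV, ← hY]
    linear_combination rel
  have hV0 : V ≠ 0 := by
    intro h; apply n12; rw [s2, h]; ring
  have hY0 : Y ≠ 0 := by
    intro h; apply n13; rw [s3, h]; ring
  have hW0 : -V - Y ≠ 0 := by
    intro h
    apply n23
    rw [s2, s3]
    linear_combination -h
  have hD : V * (starRingEnd ℂ) Y - (starRingEnd ℂ) V * Y ≠ 0 := by
    intro h0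
    have h1 : V * (starRingEnd ℂ) V * (Y * (starRingEnd ℂ) Y)
        * ((-V - Y) * (starRingEnd ℂ) (-V - Y)) = 0 := by
      rw [map_sub, map_neg]
      linear_combination rel - (V * (starRingEnd ℂ) Y - (starRingEnd ℂ) V * Y) * h0
    have c1 : (starRingEnd ℂ) V ≠ 0 := by simpa using hV0
    have c2 : (starRingEnd ℂ) Y ≠ 0 := by simpa using hY0
    have c3 : (starRingEnd ℂ) (-V - Y) ≠ 0 := (map_ne_zero _).mpr hW0
    exact (mul_ne_zero (mul_ne_zero (mul_ne_zero hV0 c1) (mul_ne_zero hY0 c2))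
      (mul_ne_zero hW0 c3)) h1
  have L0 : ∀ v : Fin k → ℝ, GR.L v u ≠ 0 → v ≠ 0 := by
    rintro v hv rfl
    apply hv
    unfold GR.L
    simp
  have yF : ∀ i, y i ∈ F := fun i => F.neg_mem (wF i)
  have sF : ∀ i, s i ∈ F := fun i => F.sub_mem (wF i) (xF i)
  obtain ⟨ex, ey⟩ := GR.entries x y s hsum
    (GR.cir_of_indep F u hu0 hind x y s xF yF sF hCir)
    (L0 x hV0) (L0 y hY0) (L0 s (by rw [hS]; exact hW0)) hu0
    (by rw [cV, cY, ← hV, ← hY]; exact hD)
  constructor
  · rw [hx']; exact inG_of_ent ex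
  · have h1 : GU.InG u Y := inG_of_ent ey
    have h2 := h1.neg
    have h3 : -Y = p3 - p1 := by rw [Ly]; ring
    rw [h3] at h2
    exact h2

end Pool.Agent.Results.MP_b0e841_co.GenericDirections
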